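import Pool.Agent.W586.SK.CoreX
import Pool.Agent.W876.SK.IBP
import Pool.Agent.W193.SK.Lim
import Pool.Agent.W474.SX.Dir
import Pool.Agent.W133.SX.ZZ
import Pool.Agent.W398.SX.Field
import Pool.Agent.W891.SX.Flow
import Pool.Agent.W40.SX.Half
import Pool.Agent.W99.SX.Cut
import Pool.Agent.W852.SX.Hardy
import Pool.Agent.W124.SX.Iter
import Pool.Agent.W586.SK.SymX
import Pool.Agent.W62.SX.Seq
import Pool.Agent.W380.SX.Tail
import Pool.Agent.W865.SX.Multi
import Pool.Agent.W586.SK.BasX
import Pool.Agent.W276.SX.MainB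
import Pool.Agent.W668.SX.MainC
import Pool.Agent.W376.SX.Cent

/-!
# KLS for exchangeable log-concave measures

The Kannan-Lovasz-Simonovits conjecture, in the equivalent (E. Milman) form of a variance bound for
Lipschitz functions, with an absolute constant, for all log-concave probability measures on `ℝ^n`
which are invariant under permutations of the coordinates, all `n`.

Method. Discrete Bochner inequality through the Gaussian channel (`H888R2.KT.key`) and a Gaussian
tilt in the direction `(1, …, 1)` (`H888R2.KT.untiltq`): it is enough to consider functions which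
are odd under the exchange of two coordinates `x_k`, `x_l`. For these a Hardy inequality holds: on
`{x_k > x_l}` there is an explicit bounded vector field which is a nonnegative combination of
spreads `e_p - e_q` with `x_q ≤ x_p` (so the density does not increase along it) and has
divergence at most `-c` when the coordinates have bounded average size.

Formalised by the team (helpers 40, 62, 99, 108, 124, 133, 193, 276, 327, 376, 380, 398, 474, 586,
668, 852, 865, 876, 891) with the starting library of helper888 and helper212.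
-/

set_option autoImplicit false

namespace Pool.Agent.Results.MP_6d896a_gt.Exchangeable

open MeasureTheory Set
open scoped ENNReal InnerProductSpace

/-- `ρ` is a log-concave density on `ℝ^n` which does not change when the coordinates are
permuted. -/
structure ExchDensity {n : ℕ} (ρ : EuclideanSpace ℝ (Fin n) → ℝ) : Prop where
  nonneg : ∀ x, 0 ≤ ρ x
  meas : Measurable ρ
  logc : ∀ x y, ∀ t : ℝ, 0 < t → t < 1 → ρ x ^ (1 - t) * ρ y ^ t ≤ ρ ((1 - t) • x + t • y)
  inv : ∀ σ : Equiv.Perm (Fin n), ∀ x y : EuclideanSpace ℝ (Fin n),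
    (∀ i, y i = x (σ i)) → ρ y = ρ x

/-- `Var ⟪θ, X⟫ ≤ s ‖θ‖²` for all `θ`: the covariance matrix of `μ` has norm at most `s`. -/
def CovLe {n : ℕ} (μ : Measure (EuclideanSpace ℝ (Fin n))) (s : ℝ) : Prop :=
  ∀ θ : EuclideanSpace ℝ (Fin n), ProbabilityTheory.evariance (fun x => ⟪θ, x⟫_ℝ) μ ≤
    ENNReal.ofReal (s * ‖θ‖ ^ 2)

/-- **KLS for exchangeable log-concave measures.** There is an absolute constant `C` such that for
all `n ≥ 1`, every log-concave probability density `ρ` on `ℝ^n` invariant under permutations of the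
coordinates and every `s > 0` such that the covariance matrix has norm at most `s`: every `C¹`
function with `‖∇ f‖ ≤ 1` has variance at most `C s`, and every `C¹` function with `|f| ≤ 1`
satisfies `(Var f)² ≤ C s E ‖∇ f‖²`. -/
theorem result : ∃ C : ℝ, 0 < C ∧ ∀ n : ℕ, 1 ≤ n →
    ∀ ρ : EuclideanSpace ℝ (Fin n) → ℝ, ExchDensity ρ →
    ∀ μ : Measure (EuclideanSpace ℝ (Fin n)),
    μ = volume.withDensity (fun x => ENNReal.ofReal (ρ x)) → IsProbabilityMeasure μ →
    ∀ s : ℝ, 0 < s → CovLe μ s → ∀ f : EuclideanSpace ℝ (Fin n) → ℝ, ContDiff ℝ 1 f →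
    ((∀ x, ‖fderiv ℝ f x‖ ≤ 1) → MemLp f 2 μ ∧ ProbabilityTheory.variance f μ ≤ C * s) ∧
    ((∀ x, |f x| ≤ 1) → ENNReal.ofReal (ProbabilityTheory.variance f μ ^ 2) ≤
      ENNReal.ofReal (C * s) * ∫⁻ x, ENNReal.ofReal (‖fderiv ℝ f x‖ ^ 2) ∂μ) := by
  have hbas : W586.SX.S_BAS := W586.SXBas.bas
  have hflow : W586.SX.S_FLOW := W891.SX.Flow.flow W474.SX.dir W133.SX.zzsx W876.SK.ibp
    W193.SK.lim W398.SX.field
  have hhardy : W586.SX.S_HARDY := W852.SX.hardy hflow W398.SX.field W40.SX.half W99.SX.cut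
  have hsym : W586.SX.S_SYM := W586.SXSym.sym W124.SX.iter
  obtain ⟨C, hC, hcore⟩ := W586.SX.core hhardy hsym W62.SX.Seq.seq W380.SX.tail W865.SX.multi hbas
  refine ⟨8 * C, by positivity, ?_⟩
  intro n hn ρ hρ' μ hμ hprob s hs hcov f hf
  subst hμ
  have hρ : W586.SX.Sx ρ := ⟨hρ'.nonneg, hρ'.meas, hρ'.logc, hρ'.inv⟩
  refine W376.SX.cent hbas (8 * C) (by positivity) ?_ ρ hn hρ hprob.measure_univ s hs hcov f hf
  intro n ρ hn hρ h1 s hs hmom f hf
  have hprob' : IsProbabilityMeasure (Pool.Agent.H212R2.KLS.mu ρ) := ⟨h1⟩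
  have hvar : ProbabilityTheory.variance f (Pool.Agent.H212R2.KLS.mu ρ) =
      ∫ x, (f x - ∫ y, f y ∂(Pool.Agent.H212R2.KLS.mu ρ)) ^ 2 ∂(Pool.Agent.H212R2.KLS.mu ρ) :=
    ProbabilityTheory.variance_eq_integral hf.continuous.measurable.aemeasurable
  rw [hvar]
  refine ⟨fun hf1 => ?_, fun hf1 => W668.SX.mainc hbas C hC hcore ρ hn hρ h1 s hs hmom f hf hf1⟩
  obtain ⟨h2, h3⟩ := W276.SX.mainb hbas C hC hcore ρ hn hρ h1 s hs hmom f hf hf1
  refine ⟨h2, h3.trans ?_⟩
  have : 0 < C * s := mul_pos hC hs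
  linarith

end Pool.Agent.Results.MP_6d896a_gt.Exchangeable
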