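import Pool.Agent.W586.SK.Core
import Pool.Agent.W724.SK.Trans
import Pool.Agent.W280.SK.ZZ
import Pool.Agent.W876.SK.IBP
import Pool.Agent.W193.SK.Lim
import Pool.Agent.W923.SK.Field
import Pool.Agent.W924.SK.Flow
import Pool.Agent.W364.SK.Half
import Pool.Agent.W154.SK.Cut
import Pool.Agent.W50.SK.Hardy
import Pool.Agent.W586.SK.Even
import Pool.Agent.W608.SK.PAR
import Pool.Agent.W632.SK.Low
import Pool.Agent.W712.SK.Up
import Pool.Agent.W58.SK.Tail
import Pool.Agent.W108.SK.Bas
import Pool.Agent.W348.SK.Main

/-!
# KLS for 1-symmetric log-concave measures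

The Kannan-Lovasz-Simonovits conjecture, in the form of a Poincare inequality, with an absolute
constant, for all log-concave probability measures on `ℝ^n` which are invariant under permutations
and sign changes of the coordinates (for example the uniform measures on the unit balls of all
1-symmetric norms), all `n`.

Method. Discrete Bochner inequality through the Gaussian channel (`H888R2.KT.key`): it is enough to
consider functions which are odd in one coordinate `x_i`. For these a Hardy inequality holds: on
`{x_i > 0}` move `x_i` outwards and all the coordinates which are of the typical size inwards. The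
new point majorizes the old one, so the density does not increase along this vector field, and the
inward motion of the many small coordinates makes its divergence at most `-c`.

Formalised by the team (helpers 50, 58, 108, 154, 193, 280, 348, 364, 493, 586, 608, 632, 712, 724,
876, 923, 924) with the starting library of helper888 and helper212.
-/

set_option autoImplicit false

namespace Pool.Agent.Results.MP_6d896a_gt.OneSymmetric

open MeasureTheory Set
open scoped ENNReal

/-- `ρ` is a log-concave density on `ℝ^n` which only depends on the absolute values of the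
coordinates and does not change when the coordinates are permuted. -/
structure SymDensity {n : ℕ} (ρ : EuclideanSpace ℝ (Fin n) → ℝ) : Prop where
  nonneg : ∀ x, 0 ≤ ρ x
  meas : Measurable ρ
  logc : ∀ x y, ∀ t : ℝ, 0 < t → t < 1 → ρ x ^ (1 - t) * ρ y ^ t ≤ ρ ((1 - t) • x + t • y)
  inv : ∀ σ : Equiv.Perm (Fin n), ∀ x y : EuclideanSpace ℝ (Fin n),
    (∀ i, |y i| = |x (σ i)|) → ρ y = ρ x

/-- **KLS for 1-symmetric log-concave measures.** There is an absolute constant `C` such that for
all `n ≥ 1`, every log-concave probability density `ρ` on `ℝ^n` invariant under permutations and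
sign changes of the coordinates, every `s > 0` with `E x_i² ≤ s` (the covariance matrix is
`E x_1²` times the identity) and every `C¹` function `f ∈ L²(μ)`: `Var f ≤ C s E ‖∇ f‖²`. -/
theorem result : ∃ C : ℝ, 0 < C ∧ ∀ n : ℕ, 1 ≤ n →
    ∀ ρ : EuclideanSpace ℝ (Fin n) → ℝ, SymDensity ρ →
    ∀ μ : Measure (EuclideanSpace ℝ (Fin n)),
    μ = volume.withDensity (fun x => ENNReal.ofReal (ρ x)) → IsProbabilityMeasure μ →
    ∀ s : ℝ, 0 < s → (∀ i, ∫⁻ x, ENNReal.ofReal (x i ^ 2) ∂μ ≤ ENNReal.ofReal s) →
    ∀ f : EuclideanSpace ℝ (Fin n) → ℝ, ContDiff ℝ 1 f → MemLp f 2 μ →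
    ENNReal.ofReal (ProbabilityTheory.variance f μ) ≤
      ENNReal.ofReal (C * s) * ∫⁻ x, ENNReal.ofReal (‖fderiv ℝ f x‖ ^ 2) ∂μ := by
  have hflow : W586.SK.S_FLOW := W924.SK.Flow.flow W724.SK.trans W280.SK.zzsy W876.SK.ibp W193.SK.lim
    W923.SKF.field
  have hhardy : W586.SK.S_HARDY := W50.SK.hardy hflow W923.SKF.field W364.SK.half W154.SK.cut
  obtain ⟨C, hC, hcore⟩ := W586.SK.core hhardy W586.SKEven.even W608.SK.par W632.SK.low W712.SK.up
    W58.SK.tail W108.SK.bas
  refine ⟨C, hC, ?_⟩
  intro n hn ρ hρ' μ hμ hprob s hs hmom f hf hfL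
  subst hμ
  have hρ : W586.SK.Sy ρ := ⟨hρ'.nonneg, hρ'.meas, hρ'.logc, hρ'.inv⟩
  have h1 := W348.SK.main W108.SK.bas C hC hcore ρ hn hρ hprob.measure_univ s hs hmom f hf hfL
  rw [ProbabilityTheory.variance_eq_integral hfL.aestronglyMeasurable.aemeasurable]
  exact h1

end Pool.Agent.Results.MP_6d896a_gt.OneSymmetric
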